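/-
MP_96d021_co, helper10: sharper form of the library of helper67 (Pool/Agent/Lib/MP_96d021).
Few edges have at least k + 1 vertices in a given set.
-/
import Mathlib
import Pool.Agent.Lib.MP_96d021.Main

set_option autoImplicit false

namespace SC10

open Finset Pool.Agent.Lib.MP_96d021

/-- every colouring of a set of at least `τ` points with `k` colours has a fraction `1 / M` of
monochromatic pairs -/
def Frac (k τ M : ℕ) : Prop :=
  ∀ (α : Type) [DecidableEq α] (T : Finset α), τ ≤ T.card → ∀ φ : α → Fin k,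
    T.offDiag.card ≤ M * (T.offDiag.filter (fun p => φ p.1 = φ p.2)).card

theorem frac_succ {k : ℕ} (hk : 1 ≤ k) : Frac k (k + 1) (2 * k ^ 2) := by
  intro α _ T hT φ
  by_cases h2 : 2 * k ≤ T.card
  · refine le_trans (mono_pairs hk T h2 φ) (Nat.mul_le_mul_right _ ?_)
    nlinarith
  · have h3 : T.offDiag.card ≤ 4 * k ^ 2 := by
      rw [Finset.offDiag_card]
      have h4 : T.card ≤ 2 * k := by omega
      calc T.card * T.card - T.card ≤ T.card * T.card := Nat.sub_le _ _
        _ ≤ (2 * k) * (2 * k) := Nat.mul_le_mul h4 h4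
        _ = 4 * k ^ 2 := by ring
    have h5 : 2 ≤ (T.offDiag.filter (fun p => φ p.1 = φ p.2)).card := by
      obtain ⟨a, ha, b, hb, hab, hφ⟩ : ∃ a ∈ T, ∃ b ∈ T, a ≠ b ∧ φ a = φ b := by
        have h6 : (Finset.univ : Finset (Fin k)).card < T.card := by
          rw [Finset.card_univ, Fintype.card_fin]
          omega
        exact Finset.exists_ne_map_eq_of_card_lt_of_maps_to h6
          (fun x _ => Finset.mem_coe.mpr (Finset.mem_univ (φ x)))
      have h7 : (1 : ℕ) < (T.offDiag.filter (fun p => φ p.1 = φ p.2)).card := by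
        refine Finset.one_lt_card.mpr ⟨(a, b), ?_, (b, a), ?_, ?_⟩
        · rw [Finset.mem_filter, Finset.mem_offDiag]
          exact ⟨⟨ha, hb, hab⟩, hφ⟩
        · rw [Finset.mem_filter, Finset.mem_offDiag]
          exact ⟨⟨hb, ha, hab.symm⟩, hφ.symm⟩
        · intro h8
          exact hab (Prod.mk.inj h8).1
      omega
    calc T.offDiag.card ≤ 4 * k ^ 2 := h3
      _ = 2 * k ^ 2 * 2 := by ring
      _ ≤ _ := Nat.mul_le_mul_left _ h5

theorem exists_pair {α : Type} [DecidableEq α] {k τ M : ℕ} (hτ : 2 ≤ τ) (hfrac : Frac k τ M)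
    (T : Finset α) (hT : τ ≤ T.card) (Φ : Finset (α → Fin k)) :
    ∃ p ∈ T.offDiag, Φ.card ≤ M * (Φ.filter (fun φ => φ p.1 = φ p.2)).card := by
  by_contra hcon
  push Not at hcon
  have hne : T.offDiag.Nonempty := by
    obtain ⟨a, ha, b, hb, hab⟩ := Finset.one_lt_card.mp (show 1 < T.card by omega)
    exact ⟨(a, b), by simp [ha, hb, hab]⟩
  have h1 : ∑ p ∈ T.offDiag, M * (Φ.filter (fun φ => φ p.1 = φ p.2)).card <
      ∑ p ∈ T.offDiag, Φ.card := Finset.sum_lt_sum_of_nonempty hne hcon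
  have h2 : ∑ p ∈ T.offDiag, (Φ.filter (fun φ => φ p.1 = φ p.2)).card =
      ∑ φ ∈ Φ, (T.offDiag.filter (fun p => φ p.1 = φ p.2)).card := by
    simp only [Finset.card_filter]
    exact Finset.sum_comm
  rw [← Finset.mul_sum, h2, Finset.mul_sum, Finset.sum_const, smul_eq_mul] at h1
  have h3 : ∑ φ ∈ Φ, T.offDiag.card ≤
      ∑ φ ∈ Φ, M * (T.offDiag.filter (fun p => φ p.1 = φ p.2)).card :=
    Finset.sum_le_sum fun φ _ => hfrac α T hT φ
  rw [Finset.sum_const, smul_eq_mul, mul_comm] at h3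
  omega

/-- Few edges meet a set `W` in at least `τ` vertices, if every colouring of a set of at least `τ`
points with `k` colours has a fraction `1 / M` of monochromatic pairs. -/
theorem few_edges {V ι : Type} [DecidableEq V] [Fintype ι] [Nonempty V]
    {e : ι → Finset V} {k τ M : ℕ} (hk : 1 ≤ k) (hM : 2 ≤ M) (hτ : 2 ≤ τ)
    (hfrac : Frac k τ M) (h : AllCol e k) (W : Finset V) :
    (Finset.univ.filter (fun i => τ ≤ (e i ∩ W).card)).card ≤ M * k * W.card := by
  classical
  -- selection of pairs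
  have hsel : ∀ S : Finset ι, (∀ i ∈ S, τ ≤ (e i ∩ W).card) →
      ∃ p : ι → V × V, (∀ i ∈ S, p i ∈ (e i ∩ W).offDiag) ∧
        M ^ S.card * (Finset.univ.filter (fun φ : W → Fin k => ∀ i ∈ S,
          ∀ (h1 : (p i).1 ∈ W) (h2 : (p i).2 ∈ W), φ ⟨_, h1⟩ ≠ φ ⟨_, h2⟩)).card ≤
        (M - 1) ^ S.card * k ^ W.card := by
    intro S
    induction S using Finset.induction_on with
    | empty =>
      intro _
      obtain ⟨x⟩ := (inferInstance : Nonempty V)
      refine ⟨fun _ => (x, x), by simp, ?_⟩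
      simp
    | insert i S hi ih =>
      intro hS
      obtain ⟨p, hp1, hp2⟩ := ih (fun j hj => hS j (Finset.mem_insert_of_mem hj))
      set Φ := Finset.univ.filter (fun φ : W → Fin k => ∀ i ∈ S,
          ∀ (h1 : (p i).1 ∈ W) (h2 : (p i).2 ∈ W), φ ⟨_, h1⟩ ≠ φ ⟨_, h2⟩) with hΦ
      -- the trace of the edge as a finset of `W`
      set T : Finset W := (e i ∩ W).attach.image
        (fun x => (⟨x.1, (Finset.mem_inter.mp x.2).2⟩ : W)) with hTdef
      have hT : τ ≤ T.card := by
        rw [hTdef, Finset.card_image_of_injective, Finset.card_attach]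
        · exact hS i (Finset.mem_insert_self _ _)
        · intro a b hab
          apply Subtype.ext
          exact congrArg (fun z : W => (z : V)) hab
      obtain ⟨⟨a, b⟩, hab, hcard⟩ := exists_pair hτ hfrac T hT Φ
      rw [Finset.mem_offDiag] at hab
      obtain ⟨ha, hb, hne⟩ := hab
      have hmemT : ∀ x : W, x ∈ T → (x : V) ∈ e i ∩ W := by
        intro x hx
        rw [hTdef, Finset.mem_image] at hx
        obtain ⟨y, _, rfl⟩ := hx
        exact y.2
      refine ⟨Function.update p i ((a : V), (b : V)), ?_, ?_⟩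
      · intro j hj
        rcases Finset.mem_insert.mp hj with rfl | hj'
        · rw [Function.update_self, Finset.mem_offDiag]
          exact ⟨hmemT a ha, hmemT b hb, fun hh => hne (Subtype.ext hh)⟩
        · have hji : j ≠ i := fun hh => hi (hh ▸ hj')
          rw [Function.update_of_ne hji]
          exact hp1 j hj'
      · have hsub : (Finset.univ.filter (fun φ : W → Fin k => ∀ j ∈ insert i S,
            ∀ (h1 : (Function.update p i ((a : V), (b : V)) j).1 ∈ W)
              (h2 : (Function.update p i ((a : V), (b : V)) j).2 ∈ W),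
              φ ⟨_, h1⟩ ≠ φ ⟨_, h2⟩)) ⊆ Φ \ Φ.filter (fun φ => φ a = φ b) := by
          intro φ hφ
          have hφ2 := (Finset.mem_filter.mp hφ).2
          refine Finset.mem_sdiff.mpr ⟨?_, ?_⟩
          · refine Finset.mem_filter.mpr ⟨Finset.mem_univ _, ?_⟩
            intro j hj
            have hji : j ≠ i := fun hh => hi (hh ▸ hj)
            have h3 := hφ2 j (Finset.mem_insert_of_mem hj)
            rw [Function.update_of_ne hji] at h3
            exact h3
          · intro hmem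
            have h4 := (Finset.mem_filter.mp hmem).2
            have h3 := hφ2 i (Finset.mem_insert_self _ _)
            rw [Function.update_self] at h3
            exact h3 a.2 b.2 h4
        have hc := Finset.card_le_card hsub
        rw [Finset.card_sdiff_of_subset (Finset.filter_subset _ _)] at hc
        have hle : (Φ.filter (fun φ => φ a = φ b)).card ≤ Φ.card :=
          Finset.card_le_card (Finset.filter_subset _ _)
        rw [Finset.card_insert_of_notMem hi, pow_succ, pow_succ]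
        set A := (Finset.univ.filter (fun φ : W → Fin k => ∀ j ∈ insert i S,
            ∀ (h1 : (Function.update p i ((a : V), (b : V)) j).1 ∈ W)
              (h2 : (Function.update p i ((a : V), (b : V)) j).2 ∈ W),
              φ ⟨_, h1⟩ ≠ φ ⟨_, h2⟩)).card with hA
        set B := (Φ.filter (fun φ => φ a = φ b)).card with hB
        have h5 : M * A ≤ (M - 1) * Φ.card := by
          have h6 : A + B ≤ Φ.card := by omega
          have h7 : (M - 1) * Φ.card = M * Φ.card - Φ.card := by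
            rw [Nat.sub_mul, one_mul]
          rw [h7]
          have h8 : M * (A + B) ≤ M * Φ.card := Nat.mul_le_mul_left _ h6
          rw [mul_add] at h8
          omega
        calc M ^ S.card * M * A = M ^ S.card * (M * A) := by ring
          _ ≤ M ^ S.card * ((M - 1) * Φ.card) := Nat.mul_le_mul_left _ h5
          _ = (M - 1) * (M ^ S.card * Φ.card) := by ring
          _ ≤ (M - 1) * ((M - 1) ^ S.card * k ^ W.card) := Nat.mul_le_mul_left _ hp2
          _ = (M - 1) ^ S.card * (M - 1) * k ^ W.card := by ring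
  set S := Finset.univ.filter (fun i => τ ≤ (e i ∩ W).card) with hSdef
  obtain ⟨p, hp1, hp2⟩ := hsel S (fun i hi => (Finset.mem_filter.mp hi).2)
  -- extend to an admissible choice
  have hq : ∀ i, ∃ q : V × V, (2 ≤ (e i).card → q.1 ∈ e i ∧ q.2 ∈ e i ∧ q.1 ≠ q.2) ∧
      (i ∈ S → q = p i) := by
    intro i
    by_cases hi : i ∈ S
    · refine ⟨p i, fun _ => ?_, fun _ => rfl⟩
      have := hp1 i hi
      rw [Finset.mem_offDiag] at this
      exact ⟨(Finset.mem_inter.mp this.1).1, (Finset.mem_inter.mp this.2.1).1, this.2.2⟩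
    · by_cases h2 : 2 ≤ (e i).card
      · obtain ⟨a, ha, b, hb, hab⟩ := Finset.one_lt_card.mp h2
        exact ⟨(a, b), fun _ => ⟨ha, hb, hab⟩, fun h3 => absurd h3 hi⟩
      · obtain ⟨x⟩ := (inferInstance : Nonempty V)
        exact ⟨(x, x), fun h3 => absurd h3 h2, fun h3 => absurd h3 hi⟩
  choose q hq1 hq2 using hq
  obtain ⟨φ, hφ⟩ := h q hq1
  have hmem : (fun x : W => φ x) ∈ Finset.univ.filter (fun φ : W → Fin k => ∀ i ∈ S,
          ∀ (h1 : (p i).1 ∈ W) (h2 : (p i).2 ∈ W), φ ⟨_, h1⟩ ≠ φ ⟨_, h2⟩) := by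
    rw [Finset.mem_filter]
    refine ⟨Finset.mem_univ _, ?_⟩
    intro i hi h1 h2
    have h3 := hp1 i hi
    rw [Finset.mem_offDiag] at h3
    have h4 : 2 ≤ (e i).card := Finset.one_lt_card.mpr
      ⟨_, (Finset.mem_inter.mp h3.1).1, _, (Finset.mem_inter.mp h3.2.1).1, h3.2.2⟩
    have h5 := hφ i h4
    rw [hq2 i hi] at h5
    exact h5
  have hpos : 1 ≤ (Finset.univ.filter (fun φ : W → Fin k => ∀ i ∈ S,
          ∀ (h1 : (p i).1 ∈ W) (h2 : (p i).2 ∈ W), φ ⟨_, h1⟩ ≠ φ ⟨_, h2⟩)).card :=
    Finset.card_pos.mpr ⟨_, hmem⟩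
  have hfin : M ^ S.card ≤ (M - 1) ^ S.card * k ^ W.card :=
    le_trans (Nat.le_mul_of_pos_right _ hpos) hp2
  -- numerical conclusion
  by_contra hlt
  push Not at hlt
  have hkey : ((M - 1 : ℕ)) ^ (M * k) * k < M ^ (M * k) := by
    have hM' : (2 : ℚ) ≤ M := by exact_mod_cast hM
    have hk1 : (1 : ℚ) ≤ k := by exact_mod_cast hk
    have hk' : (0 : ℚ) < M - 1 := by linarith
    have hcast : ((M - 1 : ℕ) : ℚ) = M - 1 := by
      rw [Nat.cast_sub (by omega)]
      push_cast
      ring
    have h8 : (1 : ℚ) + (M * k : ℕ) * (1 / (M - 1)) ≤ (1 + 1 / ((M : ℚ) - 1)) ^ (M * k) :=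
      one_add_mul_le_pow (by
        have : (0 : ℚ) ≤ 1 / (M - 1) := by positivity
        linarith) _
    have h9 : (k : ℚ) < 1 + (M * k : ℕ) * (1 / (M - 1)) := by
      push_cast
      rw [mul_one_div, ← sub_lt_iff_lt_add', lt_div_iff₀ hk']
      nlinarith
    have h10 : (k : ℚ) < (1 + 1 / ((M : ℚ) - 1)) ^ (M * k) := lt_of_lt_of_le h9 h8
    have h11 : (1 : ℚ) + 1 / (M - 1) = M / (M - 1) := by
      field_simp
      ring
    rw [h11, div_pow, lt_div_iff₀ (by positivity)] at h10
    have h12 : (((M - 1 : ℕ) ^ (M * k) * k : ℕ) : ℚ) < ((M ^ (M * k) : ℕ) : ℚ) := by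
      rw [Nat.cast_mul, Nat.cast_pow, Nat.cast_pow, hcast]
      linarith
    exact_mod_cast h12
  have hWS : ((M - 1) ^ (M * k) * k) ^ W.card ≤ (M ^ (M * k)) ^ W.card :=
    Nat.pow_le_pow_left hkey.le _
  obtain ⟨d, hd⟩ : ∃ d, S.card = M * k * W.card + (d + 1) :=
    ⟨S.card - M * k * W.card - 1, by omega⟩
  have hfin' : (M ^ (M * k)) ^ W.card * M ^ (d + 1) ≤
      ((M - 1) ^ (M * k)) ^ W.card * (M - 1) ^ (d + 1) * k ^ W.card := by
    rw [← pow_mul, ← pow_add, ← pow_mul, ← pow_add, ← hd]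
    exact hfin
  rw [mul_pow] at hWS
  have h20 : (M - 1) ^ (d + 1) < M ^ (d + 1) :=
    Nat.pow_lt_pow_left (by omega) (by omega)
  have hposA : 0 < (M ^ (M * k)) ^ W.card := by positivity
  have h21 : ((M - 1) ^ (M * k)) ^ W.card * (M - 1) ^ (d + 1) * k ^ W.card ≤
      (M ^ (M * k)) ^ W.card * (M - 1) ^ (d + 1) := by
    calc ((M - 1) ^ (M * k)) ^ W.card * (M - 1) ^ (d + 1) * k ^ W.card
        = (((M - 1) ^ (M * k)) ^ W.card * k ^ W.card) * (M - 1) ^ (d + 1) := by ring
      _ ≤ _ := Nat.mul_le_mul_right _ hWS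
  have h22 : (M ^ (M * k)) ^ W.card * M ^ (d + 1) ≤
      (M ^ (M * k)) ^ W.card * (M - 1) ^ (d + 1) := le_trans hfin' h21
  have h23 := Nat.le_of_mul_le_mul_left h22 hposA
  omega

end SC10
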