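/-
MP_96d021_co, helper10: sharper form of the library of helper67 (Pool/Agent/Lib/MP_96d021).
At most `(544 k^5 r + 1) k^(k-1)` colours.
-/
import Mathlib
import Pool.Agent.Lib.SC10.Few

set_option autoImplicit false

namespace SC10

open Finset Pool.Agent.Lib.MP_96d021

/-- The total squared size of the traces with at least `k + 1` vertices. -/
theorem sum_sq {V ι : Type} [Fintype V] [DecidableEq V] [Fintype ι] [Nonempty V]
    {e : ι → Finset V} {k r : ℕ} (hk : 2 ≤ k) (h : AllCol e k) (hr : ∀ i, (e i).card ≤ r)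
    (hr1 : 1 ≤ r) (U : Finset V) :
    ∑ i ∈ Finset.univ.filter (fun i => k + 1 ≤ (e i ∩ U).card), (e i ∩ U).card ^ 2 ≤
      544 * k ^ 5 * r * U.card := by
  classical
  have h1 := sum_sq_large hk h hr U
  have h2 := few_edges (τ := k + 1) (M := 2 * k ^ 2) (by omega) (by nlinarith) (by omega)
    (frac_succ (by omega)) h U
  set N := Finset.univ.filter (fun i => k + 1 ≤ (e i ∩ U).card) with hN
  have h3 : ∑ i ∈ N, (e i ∩ U).card ^ 2 =
      ∑ i ∈ N.filter (fun i => 4 * k ≤ (e i ∩ U).card), (e i ∩ U).card ^ 2 +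
      ∑ i ∈ N.filter (fun i => ¬ 4 * k ≤ (e i ∩ U).card), (e i ∩ U).card ^ 2 :=
    (Finset.sum_filter_add_sum_filter_not N _ _).symm
  have h4 : ∑ i ∈ N.filter (fun i => 4 * k ≤ (e i ∩ U).card), (e i ∩ U).card ^ 2 ≤
      ∑ i ∈ Finset.univ.filter (fun i => 4 * k ≤ (e i ∩ U).card), (e i ∩ U).card ^ 2 :=
    Finset.sum_le_sum_of_subset (Finset.filter_subset_filter _ (Finset.subset_univ _))
  have h5 : ∑ i ∈ N.filter (fun i => ¬ 4 * k ≤ (e i ∩ U).card), (e i ∩ U).card ^ 2 ≤
      ∑ i ∈ N.filter (fun i => ¬ 4 * k ≤ (e i ∩ U).card), 16 * k ^ 2 := by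
    refine Finset.sum_le_sum fun i hi => ?_
    have h6 := (Finset.mem_filter.mp hi).2
    push Not at h6
    calc (e i ∩ U).card ^ 2 ≤ (4 * k) ^ 2 := Nat.pow_le_pow_left h6.le 2
      _ = 16 * k ^ 2 := by ring
  rw [Finset.sum_const, smul_eq_mul] at h5
  have h7 : (N.filter (fun i => ¬ 4 * k ≤ (e i ∩ U).card)).card ≤ N.card :=
    Finset.card_le_card (Finset.filter_subset _ _)
  have h8 : (N.filter (fun i => ¬ 4 * k ≤ (e i ∩ U).card)).card * (16 * k ^ 2) ≤
      32 * k ^ 5 * U.card := by
    calc (N.filter (fun i => ¬ 4 * k ≤ (e i ∩ U).card)).card * (16 * k ^ 2)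
        ≤ (2 * k ^ 2 * k * U.card) * (16 * k ^ 2) := Nat.mul_le_mul_right _ (h7.trans h2)
      _ = 32 * k ^ 5 * U.card := by ring
  have h9 : 32 * k ^ 5 * U.card ≤ 32 * k ^ 5 * r * U.card :=
    Nat.mul_le_mul_right _ (Nat.le_mul_of_pos_right _ hr1)
  have h10 : 512 * k ^ 4 * r * U.card ≤ 512 * k ^ 5 * r * U.card := by
    refine Nat.mul_le_mul_right _ (Nat.mul_le_mul_right _ (Nat.mul_le_mul_left _ ?_))
    exact Nat.pow_le_pow_right (by omega) (by omega)
  have h11 : 544 * k ^ 5 * r * U.card = 512 * k ^ 5 * r * U.card + 32 * k ^ 5 * r * U.card := by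
    ring
  rw [h3, h11]
  omega

theorem exists_low {V ι : Type} [Fintype V] [DecidableEq V] [Fintype ι] [Nonempty V]
    {e : ι → Finset V} {k r : ℕ} (hk : 2 ≤ k) (h : AllCol e k) (hr : ∀ i, (e i).card ≤ r)
    (hr1 : 1 ≤ r) (U : Finset V) (hU : U.Nonempty) :
    ∃ v ∈ U, (U.filter (fun u => ∃ i, u ∈ e i ∧ v ∈ e i ∧ k + 1 ≤ (e i ∩ U).card)).card ≤
      544 * k ^ 5 * r := by
  classical
  by_contra hcon
  push Not at hcon
  set N := Finset.univ.filter (fun i => k + 1 ≤ (e i ∩ U).card) with hN
  have h1 : ∀ v ∈ U, (U.filter (fun u => ∃ i, u ∈ e i ∧ v ∈ e i ∧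
      k + 1 ≤ (e i ∩ U).card)).card ≤ ∑ i ∈ N, (if v ∈ e i then (e i ∩ U).card else 0) := by
    intro v _
    rw [← Finset.sum_filter]
    refine le_trans (Finset.card_le_card ?_) Finset.card_biUnion_le
    intro u hu
    rw [Finset.mem_filter] at hu
    obtain ⟨huU, i, hui, hvi, hi⟩ := hu
    rw [Finset.mem_biUnion]
    exact ⟨i, by rw [Finset.mem_filter, hN, Finset.mem_filter]; exact ⟨⟨Finset.mem_univ _, hi⟩, hvi⟩,
      Finset.mem_inter.mpr ⟨hui, huU⟩⟩
  have h2 : ∑ v ∈ U, 544 * k ^ 5 * r < ∑ v ∈ U,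
      ∑ i ∈ N, (if v ∈ e i then (e i ∩ U).card else 0) :=
    Finset.sum_lt_sum_of_nonempty hU fun v hv => lt_of_lt_of_le (hcon v hv) (h1 v hv)
  rw [Finset.sum_comm, Finset.sum_const, smul_eq_mul] at h2
  have h3 : ∑ i ∈ N, ∑ v ∈ U, (if v ∈ e i then (e i ∩ U).card else 0) =
      ∑ i ∈ N, (e i ∩ U).card ^ 2 := by
    apply Finset.sum_congr rfl
    intro i _
    rw [← Finset.sum_filter, Finset.sum_const, smul_eq_mul, sq]
    congr 2
    ext x
    simp only [mem_filter, mem_inter]
    tauto
  rw [h3] at h2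
  have h4 := sum_sq hk h hr hr1 U
  rw [mul_comm] at h2
  exact absurd (lt_of_lt_of_le h2 h4) (lt_irrefl _)

/-- The ordering and the first colouring (as in the library of helper67, with a free threshold). -/
theorem ordering {V ι : Type} [Fintype V] [DecidableEq V] [Fintype ι] [Nonempty V]
    {e : ι → Finset V} {τ B0 : ℕ} (hlow : ∀ U : Finset V, U.Nonempty → ∃ v ∈ U,
      (U.filter (fun u => ∃ i, u ∈ e i ∧ v ∈ e i ∧ τ ≤ (e i ∩ U).card)).card ≤ B0)
    (n : ℕ) : ∀ U : Finset V, U.card = n →
    ∃ (c : V → Fin (B0 + 1)) (key : V → ℕ), (∀ x ∈ U, key x ≤ n) ∧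
      (∀ x ∈ U, ∀ y ∈ U, key x = key y → x = y) ∧
      ∀ i, ∀ u ∈ e i ∩ U, ∀ v ∈ e i ∩ U, key v < key u → c u = c v →
        ((e i ∩ U).filter (fun w => key w ≤ key u)).card < τ := by
  classical
  induction n with
  | zero =>
    intro U hU
    rw [Finset.card_eq_zero] at hU
    subst hU
    refine ⟨fun _ => 0, fun _ => 0, by simp, by simp, ?_⟩
    intro i u hu
    simp at hu
  | succ n ih =>
    intro U hU
    have hne : U.Nonempty := by
      rw [← Finset.card_pos]
      omega
    obtain ⟨v, hv, hlow⟩ := hlow U hne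
    obtain ⟨c, key, hkey, hinj, hc⟩ := ih (U.erase v) (by
      rw [Finset.card_erase_of_mem hv]
      omega)
    -- choose a colour for `v`
    set B := U.filter (fun u => ∃ i, u ∈ e i ∧ v ∈ e i ∧ τ ≤ (e i ∩ U).card) with hB
    obtain ⟨a, ha⟩ : ∃ a : Fin (B0 + 1), a ∉ B.image c := by
      by_contra hcon
      push Not at hcon
      have h1 : (Finset.univ : Finset (Fin (B0 + 1))) ⊆ B.image c :=
        fun x _ => hcon x
      have h2 := Finset.card_le_card h1
      have h3 : (B.image c).card ≤ B.card := Finset.card_image_le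
      rw [Finset.card_univ, Fintype.card_fin] at h2
      omega
    refine ⟨Function.update c v a, Function.update key v (n + 1), ?_, ?_, ?_⟩
    · intro x hx
      by_cases hxv : x = v
      · subst hxv
        rw [Function.update_self]
      · rw [Function.update_of_ne hxv]
        exact (hkey x (Finset.mem_erase.mpr ⟨hxv, hx⟩)).trans (Nat.le_succ n)
    · intro x hx y hy hxy
      by_cases hxv : x = v
      · by_cases hyv : y = v
        · rw [hxv, hyv]
        · exfalso
          rw [hxv, Function.update_self, Function.update_of_ne hyv] at hxy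
          have := hkey y (Finset.mem_erase.mpr ⟨hyv, hy⟩)
          omega
      · by_cases hyv : y = v
        · exfalso
          rw [hyv, Function.update_self, Function.update_of_ne hxv] at hxy
          have := hkey x (Finset.mem_erase.mpr ⟨hxv, hx⟩)
          omega
        · rw [Function.update_of_ne hxv, Function.update_of_ne hyv] at hxy
          exact hinj x (Finset.mem_erase.mpr ⟨hxv, hx⟩) y (Finset.mem_erase.mpr ⟨hyv, hy⟩) hxy
    · intro i u hu w hw hlt hcol
      obtain ⟨hui, huU⟩ := Finset.mem_inter.mp hu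
      obtain ⟨hwi, hwU⟩ := Finset.mem_inter.mp hw
      -- the vertex with the larger key
      by_cases huv : u = v
      · have hwv : w ≠ v := by
          intro hh
          rw [huv, hh] at hlt
          exact lt_irrefl _ hlt
        rw [huv, Function.update_self, Function.update_of_ne hwv] at hcol
        have hwB : w ∉ B := fun hh => ha (Finset.mem_image.mpr ⟨w, hh, hcol.symm⟩)
        have hsmall : ¬ τ ≤ (e i ∩ U).card := by
          intro hh
          apply hwB
          rw [hB, Finset.mem_filter]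
          exact ⟨hwU, i, hwi, huv ▸ hui, hh⟩
        have h4 : ((e i ∩ U).filter (fun w => Function.update key v (n + 1) w ≤
            Function.update key v (n + 1) u)).card ≤ (e i ∩ U).card :=
          Finset.card_le_card (Finset.filter_subset _ _)
        omega
      · have hwv : w ≠ v := by
          intro hh
          rw [hh, Function.update_self, Function.update_of_ne huv] at hlt
          have := hkey u (Finset.mem_erase.mpr ⟨huv, huU⟩)
          omega
        rw [Function.update_of_ne huv, Function.update_of_ne hwv] at hcol hlt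
        have h5 := hc i u (Finset.mem_inter.mpr ⟨hui, Finset.mem_erase.mpr ⟨huv, huU⟩⟩) w
          (Finset.mem_inter.mpr ⟨hwi, Finset.mem_erase.mpr ⟨hwv, hwU⟩⟩) hlt hcol
        refine lt_of_le_of_lt (Finset.card_le_card ?_) h5
        intro x hx
        rw [Finset.mem_filter, Finset.mem_inter] at hx
        obtain ⟨⟨hxi, hxU⟩, hxk⟩ := hx
        rw [Function.update_of_ne huv] at hxk
        have hxv : x ≠ v := by
          intro hh
          rw [hh, Function.update_self] at hxk
          have := hkey u (Finset.mem_erase.mpr ⟨huv, huU⟩)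
          omega
        rw [Function.update_of_ne hxv] at hxk
        rw [Finset.mem_filter, Finset.mem_inter]
        exact ⟨⟨hxi, Finset.mem_erase.mpr ⟨hxv, hxU⟩⟩, hxk⟩


/-- Separating the vertices of small sub-edges one after the other: after `R` derived graphs every
`L i` shows at least `min |L i| (R + 1)` colours. -/
theorem small_part {V ι : Type} [Nonempty V] [DecidableEq V] {e : ι → Finset V} {k : ℕ}
    (h : AllCol e k) (L : ι → Finset V) (hL : ∀ i, L i ⊆ e i) (R : ℕ) :
    ∃ c : V → (Fin R → Fin k), ∀ i, min (L i).card (R + 1) ≤ ((L i).image c).card := by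
  classical
  induction R with
  | zero =>
    refine ⟨fun _ => Fin.elim0, fun i => ?_⟩
    rcases (L i).eq_empty_or_nonempty with h0 | hne
    · rw [h0]; simp
    · have h1 : 0 < ((L i).image (fun _ : V => (Fin.elim0 : Fin 0 → Fin k))).card :=
        Finset.card_pos.mpr (hne.image _)
      have h2 : min (L i).card (0 + 1) ≤ 1 := min_le_right _ _
      omega
  | succ R ih =>
    obtain ⟨c, hc⟩ := ih
    have hp : ∀ i, ∃ p : V × V, (2 ≤ (e i).card → p.1 ∈ e i ∧ p.2 ∈ e i ∧ p.1 ≠ p.2) ∧
        ((∃ a ∈ L i, ∃ b ∈ L i, a ≠ b ∧ c a = c b) →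
          p.1 ∈ L i ∧ p.2 ∈ L i ∧ p.1 ≠ p.2 ∧ c p.1 = c p.2) := by
      intro i
      by_cases hex : ∃ a ∈ L i, ∃ b ∈ L i, a ≠ b ∧ c a = c b
      · obtain ⟨a, ha, b, hb, hab, hcab⟩ := hex
        exact ⟨(a, b), fun _ => ⟨hL i ha, hL i hb, hab⟩, fun _ => ⟨ha, hb, hab, hcab⟩⟩
      · by_cases h2 : 2 ≤ (e i).card
        · obtain ⟨a, ha, b, hb, hab⟩ := Finset.one_lt_card.mp h2
          exact ⟨(a, b), fun _ => ⟨ha, hb, hab⟩, fun h3 => absurd h3 hex⟩
        · obtain ⟨x⟩ := (inferInstance : Nonempty V)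
          exact ⟨(x, x), fun h3 => absurd h3 h2, fun h3 => absurd h3 hex⟩
    choose p hp1 hp2 using hp
    obtain ⟨φ, hφ⟩ := h p hp1
    refine ⟨fun x => Fin.cons (φ x) (c x), fun i => ?_⟩
    set c2 : V → (Fin (R + 1) → Fin k) := fun x => Fin.cons (φ x) (c x) with hc2
    have htail : ((L i).image c2).image Fin.tail = (L i).image c := by
      rw [Finset.image_image]
      apply Finset.image_congr
      intro x _
      show Fin.tail (Fin.cons (φ x) (c x) : Fin (R + 1) → Fin k) = c x
      exact Fin.tail_cons _ _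
    have hle : ((L i).image c).card ≤ ((L i).image c2).card := by
      rw [← htail]
      exact Finset.card_image_le
    by_cases hex : ∃ a ∈ L i, ∃ b ∈ L i, a ≠ b ∧ c a = c b
    · obtain ⟨ha, hb, hab, hcab⟩ := hp2 i hex
      have h2 : 2 ≤ (e i).card := Finset.one_lt_card.mpr ⟨_, hL i ha, _, hL i hb, hab⟩
      have hne := hφ i h2
      have hlt : ((L i).image c).card < ((L i).image c2).card := by
        refine lt_of_le_of_ne hle fun heq => ?_
        have hinj : Set.InjOn (Fin.tail : (Fin (R + 1) → Fin k) → Fin R → Fin k)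
            (((L i).image c2 : Finset _) : Set (Fin (R + 1) → Fin k)) := by
          apply Finset.card_image_iff.mp
          rw [htail, heq]
        have h5 : c2 (p i).1 = c2 (p i).2 := by
          apply hinj
          · exact Finset.mem_coe.mpr (Finset.mem_image_of_mem c2 ha)
          · exact Finset.mem_coe.mpr (Finset.mem_image_of_mem c2 hb)
          · show Fin.tail (Fin.cons (φ _) (c _) : Fin (R + 1) → Fin k) =
              Fin.tail (Fin.cons (φ _) (c _) : Fin (R + 1) → Fin k)
            rw [Fin.tail_cons, Fin.tail_cons]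
            exact hcab
        apply hne
        have h6 := congrFun h5 0
        simpa [hc2] using h6
      have h7 := hc i
      have h8 : min (L i).card (R + 1 + 1) ≤ min (L i).card (R + 1) + 1 := by omega
      omega
    · have hinj : Set.InjOn c (L i : Set V) := by
        intro a ha b hb hab
        by_contra hne
        exact hex ⟨a, ha, b, hb, hne, hab⟩
      have h9 : ((L i).image c).card = (L i).card := Finset.card_image_iff.mpr hinj
      have h10 : min (L i).card (R + 1 + 1) ≤ (L i).card := min_le_left _ _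
      omega

/-- The strong colouring. -/
theorem strong {V ι : Type} [Fintype V] [DecidableEq V] [Fintype ι] [Nonempty V]
    {e : ι → Finset V} {k r : ℕ} (hk : 2 ≤ k) (h : AllCol e k) (hr : ∀ i, (e i).card ≤ r)
    (hr1 : 1 ≤ r) :
    ∃ c : V → Fin (544 * k ^ 5 * r + 1) × (Fin (k - 1) → Fin k),
      ∀ i, ∀ u ∈ e i, ∀ v ∈ e i, c u = c v → u = v := by
  classical
  obtain ⟨c, key, hkey, hinj, hc⟩ := ordering (e := e) (τ := k + 1) (B0 := 544 * k ^ 5 * r)
    (fun U hU => exists_low hk h hr hr1 U hU) _ (Finset.univ : Finset V) rfl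
  set L : ι → Finset V := fun i =>
    (e i).filter (fun x => ((e i).filter (fun w => key w ≤ key x)).card < k + 1) with hL
  have hLsub : ∀ i, L i ⊆ e i := fun i => Finset.filter_subset _ _
  have hLcard : ∀ i, (L i).card ≤ k := by
    intro i
    rcases (L i).eq_empty_or_nonempty with h0 | hne
    · rw [h0]; simp
    · obtain ⟨x, hx, hmax⟩ := Finset.exists_max_image (L i) key hne
      have hx2 := (Finset.mem_filter.mp hx).2
      have h3 : (L i).card ≤ ((e i).filter (fun w => key w ≤ key x)).card := by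
        apply Finset.card_le_card
        intro y hy
        rw [Finset.mem_filter]
        exact ⟨hLsub i hy, hmax y hy⟩
      omega
  obtain ⟨c', hc'⟩ := small_part h L hLsub (k - 1)
  have hc2 : ∀ i, Set.InjOn c' (L i : Set V) := by
    intro i
    apply Finset.card_image_iff.mp
    have h1 := hc' i
    have h2 : (L i).card ≤ k := hLcard i
    have h3 : ((L i).image c').card ≤ (L i).card := Finset.card_image_le
    have h4 : min (L i).card (k - 1 + 1) = (L i).card := by
      apply min_eq_left
      omega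
    omega
  refine ⟨fun x => (c x, c' x), ?_⟩
  have key1 : ∀ i, ∀ u ∈ e i, ∀ v ∈ e i, key v < key u → (c u, c' u) ≠ (c v, c' v) := by
    intro i u hu v hv hlt heq
    rw [Prod.mk.injEq] at heq
    have h1 := hc i u (by simpa using hu) v (by simpa using hv) hlt heq.1
    rw [Finset.inter_univ] at h1
    have huL : u ∈ L i := Finset.mem_filter.mpr ⟨hu, h1⟩
    have hvL : v ∈ L i := by
      refine Finset.mem_filter.mpr ⟨hv, lt_of_le_of_lt (Finset.card_le_card ?_) h1⟩
      intro x hx
      rw [Finset.mem_filter] at hx ⊢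
      exact ⟨hx.1, hx.2.trans hlt.le⟩
    have h5 := hc2 i (Finset.mem_coe.mpr huL) (Finset.mem_coe.mpr hvL) heq.2
    rw [h5] at hlt
    exact lt_irrefl _ hlt
  intro i u hu v hv heq
  rcases lt_trichotomy (key u) (key v) with h1 | h1 | h1
  · exact absurd heq.symm (key1 i v hv u hu h1)
  · exact hinj u (Finset.mem_univ _) v (Finset.mem_univ _) h1
  · exact absurd heq (key1 i u hu v hv h1)

end SC10
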